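import Pool.Agent.Q302.TF.Step

/-!
# A tree forcing for which some Borel set is not measurable
-/

open Set

namespace Pool.Agent.Results.MP_9b1908_lc.NotAllBorel

open Pool.Agent.Q302.TF

section

variable {Λ : Type}

/-- The initial segment of length `n` of the sequence `x`. -/
def res (x : ℕ → Λ) (n : ℕ) : List Λ := (List.range n).map x

/-- `T` is a tree: it is closed under initial segments. -/
def IsTree (T : Set (List Λ)) : Prop := ∀ s ∈ T, ∀ t, t <+: s → t ∈ T

/-- The set `[T]` of the infinite branches of `T`. -/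
def body (T : Set (List Λ)) : Set (ℕ → Λ) := {x | ∀ n, res x n ∈ T}

/-- `T` is perfect: it is nonempty, and every node has two incomparable extensions in `T`. -/
def IsPerfect (T : Set (List Λ)) : Prop :=
  T.Nonempty ∧ ∀ s ∈ T, ∃ t ∈ T, ∃ u ∈ T, s <+: t ∧ s <+: u ∧ ¬ t <+: u ∧ ¬ u <+: t

/-- The tree `T_s` of the nodes of `T` comparable with `s`. -/
def below (T : Set (List Λ)) (s : List Λ) : Set (List Λ) := {t | t ∈ T ∧ (t <+: s ∨ s <+: t)}

/-- `P` is a tree forcing: a collection of perfect trees which contains the full tree, and with `T`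
all trees `T_s` for the nodes `s` of `T`. -/
structure IsTreeForcing (P : Set (Set (List Λ))) : Prop where
  tree : ∀ T ∈ P, IsTree T
  perfect : ∀ T ∈ P, IsPerfect T
  top : Set.univ ∈ P
  sub : ∀ T ∈ P, ∀ s ∈ T, below T s ∈ P

/-- `A` is `P`-nowhere dense. -/
def IsNwd (P : Set (Set (List Λ))) (A : Set (ℕ → Λ)) : Prop :=
  ∀ T ∈ P, ∃ S ∈ P, S ⊆ T ∧ body S ∩ A = ∅

/-- `A` belongs to the `σ`-ideal generated by the `P`-nowhere dense sets: it is covered by countably
many `P`-nowhere dense sets. -/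
def InIdeal (P : Set (Set (List Λ))) (A : Set (ℕ → Λ)) : Prop :=
  ∃ N : ℕ → Set (ℕ → Λ), (∀ k, IsNwd P (N k)) ∧ A ⊆ ⋃ k, N k

/-- `A` is `P`-measurable. -/
def IsMeas (P : Set (Set (List Λ))) (A : Set (ℕ → Λ)) : Prop :=
  ∀ T ∈ P, ∃ S ∈ P, S ⊆ T ∧ (InIdeal P (body S \ A) ∨ InIdeal P (body S ∩ A))

end

lemma InIdeal.mono {P : Set (Set (List Bool))} {A A' : Set (ℕ → Bool)} (h : InIdeal P A)
    (hA : A' ⊆ A) : InIdeal P A' := by
  obtain ⟨N, h1, h2⟩ := h
  exact ⟨N, h1, hA.trans h2⟩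

lemma length_res (x : ℕ → Bool) (n : ℕ) : (res x n).length = n := by simp [res]

lemma take_res (x : ℕ → Bool) (m n : ℕ) : (res x n).take m = res x (min m n) := by
  simp [res, ← List.map_take, List.take_range]

lemma res_eq {x y : ℕ → Bool} {n : ℕ} : res x n = res y n ↔ agr n x y := by
  simp [res, List.map_inj_left, agr]

lemma res_prefix {x y : ℕ → Bool} {n m : ℕ} : res x n <+: res y m ↔ n ≤ m ∧ agr n x y := by
  rw [List.prefix_iff_eq_take, length_res, take_res]
  constructor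
  · intro h
    have h1 := congrArg List.length h
    rw [length_res, length_res] at h1
    have h2 : n ≤ m := by omega
    rw [Nat.min_eq_left h2] at h
    exact ⟨h2, res_eq.1 h⟩
  · rintro ⟨h1, h2⟩
    rw [Nat.min_eq_left h1]
    exact res_eq.2 h2

/-- the tree of a set of sequences -/
def tr (K : Set (ℕ → Bool)) : Set (List Bool) := {s | ∃ x ∈ K, ∃ n, s = res x n}

lemma body_tr {K : Set (ℕ → Bool)} (hK : IsClosed K) : body (tr K) = K := by
  apply Set.Subset.antisymm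
  · intro x hx
    apply mem_of_approx hK
    intro N
    obtain ⟨y, hy, n, hn⟩ := hx N
    have h1 := congrArg List.length hn
    rw [length_res, length_res] at h1
    subst h1
    exact ⟨y, hy, (res_eq.1 hn).symm⟩
  · intro x hx n
    exact ⟨x, hx, n, rfl⟩

lemma sub_of_tr {K K' : Set (ℕ → Bool)} (hK : IsClosed K) (h : tr K' ⊆ tr K) : K' ⊆ K := by
  intro x hx
  rw [← body_tr hK]
  intro n
  exact h ⟨x, hx, n, rfl⟩

lemma tr_mono {K K' : Set (ℕ → Bool)} (h : K' ⊆ K) : tr K' ⊆ tr K := by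
  rintro s ⟨x, hx, n, rfl⟩
  exact ⟨x, h hx, n, rfl⟩

lemma below_tr {K : Set (ℕ → Bool)} {y : ℕ → Bool} (hy : y ∈ K) (n : ℕ) :
    below (tr K) (res y n) = tr {x | x ∈ K ∧ agr n x y} := by
  ext t
  constructor
  · rintro ⟨⟨x, hx, m, rfl⟩, h | h⟩
    · obtain ⟨h1, h2⟩ := res_prefix.1 h
      exact ⟨y, ⟨hy, agr.refl _ _⟩, m, res_eq.2 h2⟩
    · obtain ⟨h1, h2⟩ := res_prefix.1 h
      exact ⟨x, ⟨hx, h2.symm⟩, m, rfl⟩
  · rintro ⟨x, ⟨hx, hxy⟩, m, rfl⟩
    refine ⟨⟨x, hx, m, rfl⟩, ?_⟩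
    rcases le_total m n with h | h
    · exact Or.inl (res_prefix.2 ⟨h, hxy.mono h⟩)
    · exact Or.inr (res_prefix.2 ⟨h, hxy.symm⟩)

lemma isTree_tr (K : Set (ℕ → Bool)) : IsTree (tr K) := by
  rintro s ⟨x, hx, n, rfl⟩ t ht
  rw [List.prefix_iff_eq_take, take_res] at ht
  exact ⟨x, hx, _, ht⟩

lemma split {K : Set (ℕ → Bool)} {B Z : Finset ℕ} (h : Inv K B Z) {x : ℕ → Bool} (hx : x ∈ K)
    (n : ℕ) : ∃ e ∈ K, ∃ e' ∈ K, ∃ t, agr n e x ∧ agr n e' x ∧ e t ≠ e' t := by
  obtain ⟨e, he, hex, heB⟩ := h.dense x hx n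
  obtain ⟨j, hj⟩ := Infinite.exists_notMem_finset (B ∪ Z)
  simp only [Finset.mem_union, not_or] at hj
  have h1 : j ∉ Irr e := fun h' => hj.1 (heB h')
  rw [mem_Irr] at h1
  push Not at h1
  obtain ⟨M, hM⟩ := h1
  obtain ⟨e', he', -, -, h2, -, h3⟩ := h.free e he heB (max n M) {j}
    (Finset.disjoint_singleton_left.2 hj.1) (Finset.disjoint_singleton_left.2 hj.2) 0
    (Nat.zero_le _)
  obtain ⟨t, ht1, ht2, ht3⟩ := h3 j (Or.inl (Finset.mem_singleton_self j))
  refine ⟨e, he, e', he', t, hex, (h2.mono (le_max_left _ _)).trans hex, fun heq => ?_⟩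
  exact hM ⟨t, le_trans (le_max_right _ _) ht1, ht2, by rw [heq]; exact ht3⟩

lemma isPerfect_tr {K : Set (ℕ → Bool)} {B Z : Finset ℕ} (h : Inv K B Z) : IsPerfect (tr K) := by
  obtain ⟨x0, hx0⟩ := h.ne
  refine ⟨⟨_, x0, hx0, 0, rfl⟩, ?_⟩
  rintro s ⟨x, hx, n, rfl⟩
  obtain ⟨e, he, e', he', t, h1, h2, h3⟩ := split h hx n
  have hnt : n ≤ t := by
    by_contra hcon
    exact h3 ((h1 t (by omega)).trans (h2 t (by omega)).symm)
  refine ⟨res e (t + 1), ⟨e, he, _, rfl⟩, res e' (t + 1), ⟨e', he', _, rfl⟩,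
    res_prefix.2 ⟨by omega, h1.symm⟩, res_prefix.2 ⟨by omega, h2.symm⟩, fun hcon => ?_,
    fun hcon => ?_⟩
  · exact h3 ((res_prefix.1 hcon).2 t (Nat.lt_succ_self t))
  · exact h3 ((res_prefix.1 hcon).2 t (Nat.lt_succ_self t)).symm

lemma inv_cyl {K : Set (ℕ → Bool)} {B Z : Finset ℕ} (h : Inv K B Z) {y : ℕ → Bool} (hy : y ∈ K)
    (n : ℕ) : Inv {x | x ∈ K ∧ agr n x y} B Z := by
  refine ⟨?_, ⟨y, hy, agr.refl _ _⟩, fun x hx => h.comp x hx.1, ?_, ?_⟩
  · apply closed_of_approx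
    intro x hx
    refine ⟨mem_of_approx h.closed fun N => ?_, ?_⟩
    · obtain ⟨z, hz, hzx⟩ := hx N
      exact ⟨z, hz.1, hzx⟩
    · obtain ⟨z, hz, hzx⟩ := hx n
      exact hzx.symm.trans hz.2
  · intro x hx N
    obtain ⟨e, he, hex, heB⟩ := h.dense x hx.1 (max N n)
    exact ⟨e, ⟨he, (hex.mono (le_max_right _ _)).trans hx.2⟩, hex.mono (le_max_left _ _), heB⟩
  · intro d hd hdB N F hFB hFZ m hm
    obtain ⟨e, he, h1, h2, h3, h4, h5⟩ := h.free d hd.1 hdB (max N n) F hFB hFZ m hm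
    refine ⟨e, ⟨he, (h3.mono (le_max_right _ _)).trans hd.2⟩, h1, h2, h3.mono (le_max_left _ _),
      fun j hj => h4 j (lt_of_lt_of_le hj (le_max_left _ _)), fun j hj => ?_⟩
    obtain ⟨t, ht, ht'⟩ := h5 j hj
    exact ⟨t, le_trans (le_max_left _ _) ht, ht'⟩

lemma inv_univ : Inv Set.univ ∅ ∅ := by
  classical
  refine ⟨isClosed_univ, ⟨fun _ => false, trivial⟩, fun x _ => Or.inr (by simp), ?_, ?_⟩
  · intro x _ N
    refine ⟨fun t => if t < N then x t else false, trivial, fun t ht => by simp [ht], ?_⟩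
    intro j hj
    obtain ⟨t, h1, -, h3⟩ := hj N
    simp [not_lt.2 h1] at h3
  · intro d _ hd N F _ _ m hm
    have hm0 : m = 0 := by simpa using hm
    subst hm0
    have hirr : Irr (fun t => d t || decide (∃ j ∈ F, t = Nat.pair j N)) = ∅ := by
      rw [Set.eq_empty_iff_forall_notMem]
      intro j hj
      apply (show j ∉ Irr d from fun h => by simpa using hd h)
      intro M
      obtain ⟨t, h1, h2, h3⟩ := hj (max M (Nat.pair j N + 1))
      refine ⟨t, le_trans (le_max_left _ _) h1, h2, ?_⟩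
      simp only [Bool.or_eq_true, decide_eq_true_eq] at h3
      rcases h3 with h3 | ⟨j', _, rfl⟩
      · exact h3
      · exfalso
        have h4 : col (Nat.pair j' N) = j' := by simp [col, Nat.unpair_pair]
        rw [h4] at h2
        subst h2
        omega
    refine ⟨fun t => d t || decide (∃ j ∈ F, t = Nat.pair j N), trivial, ?_, ?_, ?_, ?_, ?_⟩
    · rw [hirr]; exact Set.empty_subset _
    · rw [hirr]; simp
    · intro t ht
      have : ¬ ∃ j ∈ F, t = Nat.pair j N := by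
        rintro ⟨j, _, rfl⟩
        exact absurd ht (not_lt.2 (Nat.right_le_pair _ _))
      simp [this]
    · intro j _ hjF _ t ht
      have : ¬ ∃ j ∈ F, t = Nat.pair j N := by
        rintro ⟨j', hj', rfl⟩
        rw [show col (Nat.pair j' N) = j' by simp [col, Nat.unpair_pair]] at ht
        subst ht
        exact hjF hj'
      simp [this]
    · intro j hj
      have hj' : j ∈ F := by simpa using hj
      refine ⟨Nat.pair j N, Nat.right_le_pair _ _, by simp [col, Nat.unpair_pair], ?_⟩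
      simp only [Bool.or_eq_true, decide_eq_true_eq]
      exact Or.inr ⟨j, hj', rfl⟩

/-- the forcing -/
def PP : Set (Set (List Bool)) := {T | ∃ (K : Set (ℕ → Bool)) (B Z : Finset ℕ), Inv K B Z ∧ T = tr K}

lemma forcing : IsTreeForcing PP := by
  refine ⟨?_, ?_, ?_, ?_⟩
  · rintro T ⟨K, B, Z, h, rfl⟩
    exact isTree_tr K
  · rintro T ⟨K, B, Z, h, rfl⟩
    exact isPerfect_tr h
  · refine ⟨Set.univ, ∅, ∅, inv_univ, ?_⟩
    symm
    rw [Set.eq_univ_iff_forall]
    intro s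
    refine ⟨fun i => s.getD i false, trivial, s.length, ?_⟩
    apply List.ext_getElem
    · simp [res]
    · intro i h1 h2
      simp [res, h1]
  · rintro T ⟨K, B, Z, h, rfl⟩ s ⟨y, hy, n, rfl⟩
    exact ⟨_, B, Z, inv_cyl h hy n, below_tr hy n⟩

lemma exists_level {K : Set (ℕ → Bool)} {B Z : Finset ℕ} (h : Inv K B Z) (l : ℕ) :
    ∃ (K' : Set (ℕ → Bool)) (B' Z' : Finset ℕ), K' ⊆ K ∧ Inv K' B' Z' ∧
      B'.card = B.card + l := by
  induction l with
  | zero => exact ⟨K, B, Z, le_rfl, h, rfl⟩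
  | succ l ih =>
    obtain ⟨K', B', Z', h1, h2, h3⟩ := ih
    obtain ⟨K'', B'', Z'', -, h4, h5, h6, -⟩ := step h2 fun _ => 0
    exact ⟨K'', B'', Z'', h4.trans h1, h5, by omega⟩

lemma exists_type {K : Set (ℕ → Bool)} {B Z : Finset ℕ} (h : Inv K B Z) (n : ℕ) :
    ∃ x ∈ K, ∃ F : Finset ℕ, Irr x = F ∧ F.card = n := by
  obtain ⟨K', B', Z', h1, h2, h3⟩ := exists_level h n
  obtain ⟨x, hx⟩ := h2.ne
  obtain ⟨d, hd, -, hdB⟩ := h2.dense x hx 0
  obtain ⟨e, he, heB, hec, -⟩ := h2.free d hd hdB 0 ∅ (Finset.disjoint_empty_left _)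
    (Finset.disjoint_empty_left _) n (by omega)
  have hfin : (Irr e).Finite := B'.finite_toSet.subset heB
  refine ⟨e, h1 he, hfin.toFinset, by simp, ?_⟩
  rw [← hec, Set.ncard_eq_toFinset_card _ hfin]

lemma not_ideal {K : Set (ℕ → Bool)} {B Z : Finset ℕ} (h : Inv K B Z) :
    ¬ InIdeal PP {x | x ∈ K ∧ ∃ F : Finset ℕ, Irr x = F ∧ F.card = B.card} := by
  classical
  rintro ⟨N, hN, hcov⟩
  obtain ⟨K', B', Z', k, h1, h2, h3, h4⟩ :=
    step h fun x => if hx : ∃ k, x ∈ N k then Nat.find hx else 0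
  obtain ⟨S, ⟨K'', B'', Z'', h5, rfl⟩, h6, h7⟩ := hN k (tr K') ⟨K', B', Z', h2, rfl⟩
  obtain ⟨x, hx, F, hxF, hFc⟩ := exists_type h5 B.card
  have hx' : x ∈ K' := sub_of_tr h2.closed h6 hx
  have hcol := h4 x hx' F hxF hFc
  have hex : ∃ k, x ∈ N k := by
    simpa using hcov ⟨h1 hx', F, hxF, hFc⟩
  rw [dif_pos hex] at hcol
  have hmem : x ∈ N k := by
    have := Nat.find_spec hex
    rwa [hcol] at this
  have : x ∈ body (tr K'') ∩ N k := ⟨by rw [body_tr h5.closed]; exact hx, hmem⟩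
  rw [h7] at this
  exact this

/-- the Borel set -/
def AA : Set (ℕ → Bool) := {x | ∃ F : Finset ℕ, Irr x = F ∧ Even F.card}

lemma borel_AA : @MeasurableSet _ (borel (ℕ → Bool)) AA := by
  rw [← BorelSpace.measurable_eq]
  have h1 : ∀ j : ℕ, MeasurableSet {x : ℕ → Bool | j ∈ Irr x} := by
    intro j
    have : {x : ℕ → Bool | j ∈ Irr x} =
        ⋂ M : ℕ, ⋃ t : ℕ, {x : ℕ → Bool | M ≤ t ∧ col t = j ∧ x t = true} := by
      ext x
      simp [Irr]
    rw [this]
    refine MeasurableSet.iInter fun M => MeasurableSet.iUnion fun t => ?_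
    by_cases hM : M ≤ t
    · by_cases ht : col t = j
      · have : {x : ℕ → Bool | M ≤ t ∧ col t = j ∧ x t = true} = {x | x t = true} := by
          ext x; simp [hM, ht]
        rw [this]
        exact (measurableSet_singleton true).preimage (measurable_pi_apply t)
      · have : {x : ℕ → Bool | M ≤ t ∧ col t = j ∧ x t = true} = ∅ := by
          ext x; simp [ht]
        rw [this]
        exact MeasurableSet.empty
    · have : {x : ℕ → Bool | M ≤ t ∧ col t = j ∧ x t = true} = ∅ := by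
        ext x; simp [hM]
      rw [this]
      exact MeasurableSet.empty
  have h2 : AA = ⋃ F ∈ {F : Finset ℕ | Even F.card}, ⋂ j : ℕ,
      {x : ℕ → Bool | j ∈ Irr x ↔ j ∈ F} := by
    ext x
    simp only [AA, Set.mem_ofPred_eq, Set.mem_iUnion, Set.mem_iInter, exists_prop]
    constructor
    · rintro ⟨F, h3, h4⟩
      exact ⟨F, h4, fun j => by rw [h3]; simp⟩
    · rintro ⟨F, h3, h4⟩
      exact ⟨F, by ext j; rw [h4 j]; simp, h3⟩
  rw [h2]
  refine MeasurableSet.biUnion (Set.to_countable _) fun F _ => MeasurableSet.iInter fun j => ?_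
  by_cases hj : j ∈ F
  · simp only [hj, iff_true]
    exact h1 j
  · simp only [hj, iff_false]
    exact (h1 j).compl

/-- There are a tree forcing `P` on `2^{<ω}` and a Borel subset of `2^ω` which is not
`P`-measurable. -/
theorem result : ∃ (P : Set (Set (List Bool))) (A : Set (ℕ → Bool)),
    IsTreeForcing P ∧ @MeasurableSet _ (borel (ℕ → Bool)) A ∧ ¬ IsMeas P A := by
  refine ⟨PP, AA, forcing, borel_AA, fun hmeas => ?_⟩
  obtain ⟨S, ⟨K, B, Z, h, rfl⟩, -, hS⟩ := hmeas Set.univ forcing.top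
  rw [body_tr h.closed] at hS
  obtain ⟨K', B', Z', k, h1, h2, h3, -⟩ := step h fun _ => 0
  -- a point of type `|B|` belongs to `A` if and only if `|B|` is even
  have key : ∀ (L : Set (ℕ → Bool)) (C W : Finset ℕ), L ⊆ K → Inv L C W →
      (Even C.card → ¬ InIdeal PP (K ∩ AA)) ∧ (¬ Even C.card → ¬ InIdeal PP (K \ AA)) := by
    intro L C W hLK hL
    constructor
    · intro hev hid
      apply not_ideal hL
      apply hid.mono
      rintro x ⟨hx, F, hF, hFc⟩
      exact ⟨hLK hx, F, hF, by rw [hFc]; exact hev⟩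
    · intro hev hid
      apply not_ideal hL
      apply hid.mono
      rintro x ⟨hx, F, hF, hFc⟩
      refine ⟨hLK hx, ?_⟩
      rintro ⟨F', hF', hF'e⟩
      rw [hF, Finset.coe_inj] at hF'
      subst hF'
      exact hev (by rw [← hFc]; exact hF'e)
  have k1 := key K B Z le_rfl h
  have k2 := key K' B' Z' h1 h2
  rw [h3, Nat.even_add_one, not_not] at k2
  by_cases hev : Even B.card
  · rcases hS with hS | hS
    · exact k2.2 hev hS
    · exact k1.1 hev hS
  · rcases hS with hS | hS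
    · exact k1.2 hev hS
    · exact k2.1 hev hS

end Pool.Agent.Results.MP_9b1908_lc.NotAllBorel
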